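import Mathlib
import Pool.Agent.TH260.EU.Main

set_option autoImplicit false

/-!
# Eager variable elimination is complete for lazy paramodulation

The transformation system `𝒯` for general `E`-unification (Trivial, Decomposition, Variable
Elimination and Lazy Paramodulation), restricted to eager derivations, is complete for every set
`E` of equations.

Idea of the proof.

1. Plans. Terms are well-ordered by a total order which is strictly monotone in the arguments.
   Replacing every term bottom-up by the least term reachable at the root from it gives normal
   forms, which are invariant under `E`-equality. So an `E`-unifier `θ` of `S` can be replaced by
   an `E`-equal `θ₀` such that both sides of every equation of `S` evaluate under `θ₀` to a common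
   value, where each node of the pattern is rewritten by equations of `E ∪ E⁻¹` applied at the root
   with an evaluated right-hand side.
2. Costs. Each rewriting step of such an evaluation gets a level which is larger than all levels in
   the evaluations of the arguments of the left-hand side of its rule, and the cost of an equation
   is the multiset of the levels.
3. Simulation. A group of equations is solved by induction on the number of its equations with
   non-zero cost, then on the total cost (multiset order), then on the size. Exact equations are
   decomposed or eliminated, an inexact equation `x ≈ t` with `x ∉ Var(t)` is eliminated (the first
   measure decreases), and only if neither kind is left, Lazy Paramodulation is applied at an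
   innermost rewriting step; the equations for the arguments have smaller levels and are solved
   first, by induction on the bound of the levels.
-/

namespace Pool.Agent.Results.MP_8c9686_lc.EagerLazyParamodulation

open Pool.Agent.TH260.EU

universe u

/-- `𝒯` restricted to eager derivations is complete: for every signature, every set `E` of
equations, every system `S` and every `E`-unifier `θ` of `S`, and for every finite set `U` of
variables which contains the variables of `S`, some eager derivation (in which all fresh variants
avoid `U` and all variables used before) transforms `S` into a solved system `S'` with
`σ_{S'} ≤_E θ [U]`. -/
theorem result {F : Type u} (ar : F → ℕ) (E : Set (Term ar × Term ar)) (S : Sys ar)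
    (θ : ℕ → Term ar) (hθ : IsUnifier E θ S) (U : Finset ℕ) (hU : ∀ x, Occurs x S → x ∈ U) :
    ∃ (U' : Finset ℕ) (S' : Sys ar) (X : Finset ℕ) (t : ℕ → Term ar),
      Relation.ReflTransGen (Step E) (U, S) (U', S') ∧ IsSolved S' X t ∧
      ∃ η : ℕ → Term ar, ∀ x ∈ U, EqE E ((solvedSubst X t x).subst η) (θ x) :=
  main E S θ hθ U hU

end Pool.Agent.Results.MP_8c9686_lc.EagerLazyParamodulation
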